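import Pool.Agent.Lib.MP_dbcba7_co.Mo.Flow

/-! The petal criterion: weights carried by fixed petals through each point. -/

namespace Pool.Agent.Lib.MP_dbcba7_co.Mo

open Finset

variable {α : Type*} [DecidableEq α]

open Classical in
/-- the weight sent by a move `(x, W)` to the point `y` -/
noncomputable def wt {D : ℕ} (P : α → Fin D → Finset α) (K : α → Finset α) (c : ℕ → ℝ)
    (x : α) (W : Finset α) (y : α) : ℝ :=
  if y ∈ K x then (if W = {x, y} then 1 else 0) else if ∃ i, W ⊆ P x i then c W.card else 0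

theorem wt_nonneg {D : ℕ} (P : α → Fin D → Finset α) (K : α → Finset α) {c : ℕ → ℝ}
    (hc : ∀ n, 0 ≤ c n) (x : α) (W : Finset α) (y : α) : 0 ≤ wt P K c x W y := by
  unfold wt
  split_ifs <;> first | exact hc _ | norm_num

theorem sum_between {c : ℕ → ℝ} (hc : ∀ n, 0 ≤ c n) (B T : Finset α) (hBT : B ⊆ T)
    (N : Finset (Finset α)) (hN : ∀ W ∈ N, B ⊆ W ∧ W ⊆ T) :
    ∑ W ∈ N, c W.card ≤
      ∑ j ∈ range (T.card - B.card + 1), ((T.card - B.card).choose j : ℝ) * c (B.card + j) := by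
  have h1 := sum_powerset_apply_card (fun j => c (B.card + j)) (x := T \ B)
  rw [card_sdiff_of_subset hBT] at h1
  simp only [nsmul_eq_mul] at h1
  rw [← h1]
  have hinj : Set.InjOn (fun W => W \ B) (N : Set (Finset α)) := by
    intro W hW W' hW' e
    simp only at e
    rw [← sdiff_union_of_subset (hN W hW).1, e, sdiff_union_of_subset (hN W' hW').1]
  calc ∑ W ∈ N, c W.card = ∑ W ∈ N, c (B.card + (W \ B).card) := by
        refine sum_congr rfl (fun W hW => ?_)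
        rw [card_sdiff_of_subset (hN W hW).1, Nat.add_sub_cancel' (card_le_card (hN W hW).1)]
    _ = ∑ V ∈ N.image (fun W => W \ B), c (B.card + V.card) := by rw [sum_image hinj]
    _ ≤ _ := by
        refine sum_le_sum_of_subset_of_nonneg (fun V hV => ?_) (fun _ _ _ => hc _)
        obtain ⟨W, hW, rfl⟩ := mem_image.1 hV
        exact mem_powerset.2 (sdiff_subset_sdiff (hN W hW).2 (Subset.refl _))

theorem wt_in {D k : ℕ} {X : Finset α} {P : α → Fin D → Finset α} {K : α → Finset α}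
    {c : ℕ → ℝ} (hc : ∀ n, 0 ≤ c n) (hk : ∀ x ∈ X, ∀ i, (P x i).card ≤ k)
    (hd : ∀ x ∈ X, ∀ i j, i ≠ j → P x i ∩ P x j ⊆ insert x (K x))
    (hi : ∀ q r : ℕ, 1 ≤ q → q + 1 + r ≤ k →
      (q : ℝ) * ∑ j ∈ range (r + 1), (r.choose j : ℝ) * c (q + 1 + j) ≤ 1)
    (y : α) (M : Finset (α × Finset α)) (h1 : ∀ p ∈ M, p.1 ∈ X ∧ y ∈ p.2 ∧ y ≠ p.1)
    (h2 : ∀ p ∈ M, ∀ q ∈ M, p.1 ∈ q.2) : ∑ p ∈ M, wt P K c p.1 p.2 y ≤ 1 := by
  classical
  by_cases hA : ∃ p ∈ M, y ∈ K p.1 ∧ p.2 = {p.1, y}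
  · obtain ⟨p, hp, hy, e⟩ := hA
    rw [sum_eq_single_of_mem p hp]
    · simp [wt, hy, e]
    · intro q hq hne
      have hq1 : q.1 = p.1 := by
        have := h2 q hq p hp
        rw [e, mem_insert, mem_singleton] at this
        exact this.resolve_right (h1 q hq).2.2.symm
      have : q.2 ≠ {q.1, y} := fun e' => hne (Prod.ext hq1 (by rw [e', e, hq1]))
      unfold wt
      rw [if_pos (hq1 ▸ hy), if_neg this]
  set M' := M.filter (fun p => y ∉ K p.1 ∧ ∃ i, p.2 ⊆ P p.1 i) with hM'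
  have e1 : ∑ p ∈ M, wt P K c p.1 p.2 y = ∑ p ∈ M', c p.2.card := by
    rw [hM', sum_filter]
    refine sum_congr rfl (fun p hp => ?_)
    unfold wt
    by_cases hy : y ∈ K p.1
    · rw [if_pos hy, if_neg (fun e => hA ⟨p, hp, hy, e⟩), if_neg (fun h => h.1 hy)]
    · rw [if_neg hy]
      by_cases h : ∃ i, p.2 ⊆ P p.1 i
      · rw [if_pos h, if_pos ⟨hy, h⟩]
      · rw [if_neg h, if_neg (fun h' => h h'.2)]
  set Q := M'.image Prod.fst with hQ
  have hyQ : y ∉ Q := by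
    intro h
    obtain ⟨p, hp, e⟩ := mem_image.1 h
    exact (h1 p (mem_filter.1 hp).1).2.2 e.symm
  have hB : ∀ p ∈ M', insert y Q ⊆ p.2 := by
    intro p hp z hz
    rcases mem_insert.1 hz with rfl | hz
    · exact (h1 p (mem_filter.1 hp).1).2.1
    · obtain ⟨q, hq, rfl⟩ := mem_image.1 hz
      exact h2 q (mem_filter.1 hq).1 p (mem_filter.1 hp).1
  rw [e1, ← sum_fiberwise_of_maps_to (t := Q) (g := Prod.fst)
    (fun p hp => mem_image_of_mem _ hp)]
  rcases Q.eq_empty_or_nonempty with h0 | h0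
  · rw [h0]; simp
  have hq : (0 : ℝ) < Q.card := by exact_mod_cast card_pos.2 h0
  have e2 : ∀ x ∈ Q, ∑ p ∈ M'.filter (fun p => p.1 = x), c p.2.card ≤ 1 / (Q.card : ℝ) := by
    intro x hx
    obtain ⟨p0, hp0, rfl⟩ := mem_image.1 hx
    obtain ⟨hp0M, hy0, i0, hi0⟩ := mem_filter.1 hp0
    have hx0 := (h1 p0 hp0M).1
    have hBT : insert y Q ⊆ P p0.1 i0 := (hB p0 hp0).trans hi0
    have hinj : Set.InjOn (Prod.snd : α × Finset α → Finset α)
        (M'.filter (fun p => p.1 = p0.1) : Finset _) := by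
      intro p hp q hq e
      rw [mem_coe, mem_filter] at hp hq
      exact Prod.ext (hp.2.trans hq.2.symm) e
    have h3 := sum_between hc (insert y Q) (P p0.1 i0) hBT
      ((M'.filter (fun p => p.1 = p0.1)).image Prod.snd) (by
        intro W hW
        obtain ⟨p, hp, rfl⟩ := mem_image.1 hW
        obtain ⟨hp', e⟩ := mem_filter.1 hp
        refine ⟨hB p hp', ?_⟩
        obtain ⟨hpM, -, i, hi'⟩ := mem_filter.1 hp'
        rw [e] at hi'
        by_cases hii : i = i0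
        · exact hii ▸ hi'
        · have := hd _ hx0 i i0 hii (mem_inter.2 ⟨hi' (h1 p hpM).2.1, hi0 (h1 p0 hp0M).2.1⟩)
          rcases mem_insert.1 this with h | h
          · exact absurd h (h1 p0 hp0M).2.2
          · exact absurd h hy0)
    rw [sum_image hinj, card_insert_of_notMem hyQ] at h3
    have h4 := card_le_card hBT
    rw [card_insert_of_notMem hyQ] at h4
    have h5 := hi Q.card ((P p0.1 i0).card - (Q.card + 1)) (card_pos.2 h0)
      (by have := hk _ hx0 i0; omega)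
    rw [le_div_iff₀ hq, mul_comm]
    exact (mul_le_mul_of_nonneg_left h3 hq.le).trans h5
  refine (sum_le_sum e2).trans ?_
  rw [sum_const, nsmul_eq_mul, mul_one_div_cancel hq.ne']

open Classical in
theorem wt_out {F : Finset (Finset α)} (hF : ∀ A ∈ F, ∀ B ∈ F, A ∪ B ∈ F)
    {D : ℕ} (hD : 0 < D) {X : Finset α} {P : α → Fin D → Finset α} {K : α → Finset α}
    {c : ℕ → ℝ} (hc : ∀ n, 0 ≤ c n)
    (hP : ∀ x ∈ X, ∀ i, P x i ∈ F ∧ x ∈ P x i ∧ P x i ⊆ X ∧ (P x i ∩ K x).card ≤ 1)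
    (hd : ∀ x ∈ X, ∀ i j, i ≠ j → P x i ∩ P x j ⊆ insert x (K x))
    (ho : ∀ x ∈ X, ∀ i, ∀ W ⊆ P x i, x ∈ W → (W \ insert x (K x)).Nonempty →
      (1 : ℝ) ≤ D * ((W \ insert x (K x)).card * c W.card))
    (S : Finset α) (x : α) (hb : (S, x) ∈ blk F X) :
    1 ≤ ∑ u ∈ (X.powerset ×ˢ X).filter (fun u => Move F S x u.1 ∧ u.2 ∈ u.1 ∧ u.2 ≠ x),
        wt P K c x u.1 u.2 := by
  simp only [blk, mem_filter, mem_product] at hb
  obtain ⟨⟨hS, hx⟩, hxS, hi⟩ := hb
  choose W hW hm using fun i => exists_move hF hS (hP x hx i).1 (hP x hx i).2.1 hxS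
  have hU : ∀ i, ∀ y ∈ W i, y ≠ x → (W i, y) ∈
      (X.powerset ×ˢ X).filter (fun u => Move F S x u.1 ∧ u.2 ∈ u.1 ∧ u.2 ≠ x) := by
    intro i y hy hyx
    have := (hW i).trans (hP x hx i).2.2.1
    simp only [mem_filter, mem_product, mem_powerset]
    exact ⟨⟨this, this hy⟩, hm i, hy, hyx⟩
  by_cases hA : ∃ i, W i ⊆ insert x (K x)
  · obtain ⟨i, hi'⟩ := hA
    have hne : ∃ y ∈ W i, y ≠ x := by
      by_contra! h
      have : W i = {x} := eq_singleton_iff_unique_mem.2 ⟨(hm i).2.1, h⟩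
      have h2 := (hm i).2.2.2.1
      rw [this, union_comm, ← insert_eq] at h2
      exact hi h2
    obtain ⟨y, hy, hyx⟩ := hne
    have hK : ∀ z ∈ W i, z ≠ x → z ∈ P x i ∩ K x := fun z hz hzx =>
      mem_inter.2 ⟨hW i hz, (mem_insert.1 (hi' hz)).resolve_left hzx⟩
    have e : W i = {x, y} := by
      ext z
      rw [mem_insert, mem_singleton]
      constructor
      · intro hz
        by_cases hzx : z = x
        · exact Or.inl hzx
        · exact Or.inr (card_le_one.1 (hP x hx i).2.2.2 _ (hK z hz hzx) _ (hK y hy hyx))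
      · rintro (rfl | rfl)
        · exact (hm i).2.1
        · exact hy
    refine le_trans ?_ (single_le_sum (f := fun u : Finset α × α => wt P K c x u.1 u.2)
      (fun u _ => wt_nonneg P K hc _ _ _) (hU i y hy hyx))
    simp only [wt]
    rw [if_pos (mem_inter.1 (hK y hy hyx)).2, if_pos e]
  push Not at hA
  have hinj : Set.InjOn (fun t : (Σ _ : Fin D, α) => (W t.1, t.2))
      (univ.sigma (fun i => W i \ insert x (K x)) : Finset _) := by
    rintro ⟨i, y⟩ ht ⟨j, y'⟩ ht' e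
    simp only [mem_coe, mem_sigma, mem_univ, true_and, mem_sdiff, Prod.mk.injEq] at ht ht' e
    obtain ⟨e, rfl⟩ := e
    by_cases hij : i = j
    · rw [hij]
    · exact absurd (hd x hx i j hij (mem_inter.2 ⟨hW i ht.1, hW j ht'.1⟩)) ht.2
  have hDq : (0 : ℝ) < D := by exact_mod_cast hD
  calc (1 : ℝ) = ∑ _i : Fin D, 1 / (D : ℝ) := by
        rw [sum_const, card_univ, Fintype.card_fin, nsmul_eq_mul, mul_one_div_cancel hDq.ne']
    _ ≤ ∑ i : Fin D, ∑ y ∈ W i \ insert x (K x), wt P K c x (W i) y := by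
        refine sum_le_sum (fun i _ => ?_)
        have : ∀ y ∈ W i \ insert x (K x), wt P K c x (W i) y = c (W i).card := by
          intro y hy
          have hy' : y ∉ K x := fun h => (mem_sdiff.1 hy).2 (mem_insert_of_mem h)
          unfold wt
          rw [if_neg hy', if_pos ⟨i, hW i⟩]
        rw [sum_congr rfl this, sum_const, nsmul_eq_mul, div_le_iff₀ hDq, mul_comm]
        exact ho x hx i _ (hW i) (hm i).2.1 (sdiff_nonempty.2 (hA i))
    _ = ∑ u ∈ (univ.sigma (fun i => W i \ insert x (K x))).image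
          (fun t : (Σ _ : Fin D, α) => (W t.1, t.2)), wt P K c x u.1 u.2 := by
        rw [sum_image hinj, sum_sigma]
    _ ≤ _ := by
        refine sum_le_sum_of_subset_of_nonneg (fun u hu => ?_)
          (fun u _ _ => wt_nonneg P K hc _ _ _)
        obtain ⟨t, ht, rfl⟩ := mem_image.1 hu
        have h := mem_sdiff.1 (mem_sigma.1 ht).2
        exact hU _ _ h.1 (fun e => h.2 (e ▸ mem_insert_self _ _))

theorem crit {F : Finset (Finset α)} (hF : ∀ A ∈ F, ∀ B ∈ F, A ∪ B ∈ F)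
    {D k : ℕ} (hD : 0 < D) {X : Finset α} {P : α → Fin D → Finset α} {K : α → Finset α}
    {c : ℕ → ℝ} (hc : ∀ n, 0 ≤ c n)
    (hP : ∀ x ∈ X, ∀ i, P x i ∈ F ∧ x ∈ P x i ∧ P x i ⊆ X ∧ (P x i ∩ K x).card ≤ 1)
    (hk : ∀ x ∈ X, ∀ i, (P x i).card ≤ k)
    (hd : ∀ x ∈ X, ∀ i j, i ≠ j → P x i ∩ P x j ⊆ insert x (K x))
    (ho : ∀ x ∈ X, ∀ i, ∀ W ⊆ P x i, x ∈ W → (W \ insert x (K x)).Nonempty →
      (1 : ℝ) ≤ D * ((W \ insert x (K x)).card * c W.card))
    (hi : ∀ q r : ℕ, 1 ≤ q → q + 1 + r ≤ k →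
      (q : ℝ) * ∑ j ∈ range (r + 1), (r.choose j : ℝ) * c (q + 1 + j) ≤ 1) :
    F.card * X.card ≤ 2 * ∑ S ∈ F, (S ∩ X).card :=
  mean_of_le F X (flow hF X (wt P K c) (wt_out hF hD hc hP hd ho) (wt_in hc hk hd hi))

end Pool.Agent.Lib.MP_dbcba7_co.Mo
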