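import Mathlib

/-! Discharging between blocked and essential pairs of a union-closed family. -/

namespace Pool.Agent.Lib.MP_dbcba7_co.Mo

open Finset

variable {α : Type*} [DecidableEq α]

/-- blocked pairs -/
def blk (F : Finset (Finset α)) (X : Finset α) : Finset (Finset α × α) :=
  (F ×ˢ X).filter (fun p => p.2 ∉ p.1 ∧ insert p.2 p.1 ∉ F)

/-- essential pairs -/
def ess (F : Finset (Finset α)) (X : Finset α) : Finset (Finset α × α) :=
  (F ×ˢ X).filter (fun p => p.2 ∈ p.1 ∧ p.1.erase p.2 ∉ F)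

theorem out_le_in (F : Finset (Finset α)) (X : Finset α)
    (h : (blk F X).card ≤ (ess F X).card) :
    ((F ×ˢ X).filter (fun p => p.2 ∉ p.1)).card ≤ ((F ×ˢ X).filter (fun p => p.2 ∈ p.1)).card := by
  have h1 := card_filter_add_card_filter_not
    (s := (F ×ˢ X).filter (fun p => p.2 ∉ p.1)) (fun p => insert p.2 p.1 ∉ F)
  have h2 := card_filter_add_card_filter_not
    (s := (F ×ˢ X).filter (fun p => p.2 ∈ p.1)) (fun p => p.1.erase p.2 ∉ F)
  rw [filter_filter] at h1 h2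
  have h3 : (((F ×ˢ X).filter (fun p => p.2 ∉ p.1)).filter
      (fun p => ¬ (insert p.2 p.1 ∉ F))).card ≤
      (((F ×ˢ X).filter (fun p => p.2 ∈ p.1)).filter (fun p => ¬ (p.1.erase p.2 ∉ F))).card := by
    apply card_le_card_of_injOn (fun p => (insert p.2 p.1, p.2))
    · rintro ⟨S, x⟩ hp
      simp only [coe_filter, mem_filter, mem_product, Set.mem_ofPred_eq, not_not] at hp ⊢
      obtain ⟨⟨⟨hS, hx⟩, hxS⟩, hi⟩ := hp
      refine ⟨⟨⟨hi, hx⟩, mem_insert_self _ _⟩, ?_⟩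
      rwa [erase_insert hxS]
    · rintro ⟨S, x⟩ hp ⟨S', x'⟩ hp' e
      simp only [coe_filter, mem_filter, mem_product, Set.mem_ofPred_eq, not_not] at hp hp'
      simp only [Prod.mk.injEq] at e ⊢
      obtain ⟨e1, rfl⟩ := e
      refine ⟨?_, rfl⟩
      rw [← erase_insert hp.1.2, e1, erase_insert hp'.1.2]
  unfold blk ess at h
  omega

theorem mean_of_le (F : Finset (Finset α)) (X : Finset α)
    (h : (blk F X).card ≤ (ess F X).card) :
    F.card * X.card ≤ 2 * ∑ S ∈ F, (S ∩ X).card := by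
  have h0 := out_le_in F X h
  have h1 := card_filter_add_card_filter_not (s := F ×ˢ X) (fun p => p.2 ∈ p.1)
  rw [card_product] at h1
  have h2 : ((F ×ˢ X).filter (fun p => p.2 ∈ p.1)).card = ∑ S ∈ F, (S ∩ X).card := by
    rw [card_filter, sum_product]
    refine sum_congr rfl (fun S _ => ?_)
    rw [← card_filter, filter_mem_eq_inter, inter_comm]
  omega

theorem half_of_mean (F : Finset (Finset α)) (X : Finset α) (hX : X.Nonempty)
    (h : F.card * X.card ≤ 2 * ∑ S ∈ F, (S ∩ X).card) :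
    ∃ x ∈ X, F.card ≤ 2 * (F.filter (fun S => x ∈ S)).card := by
  have h2 : ∑ S ∈ F, (S ∩ X).card = ∑ x ∈ X, (F.filter (fun S => x ∈ S)).card := by
    simp only [card_filter]
    rw [sum_comm]
    refine sum_congr rfl (fun S _ => ?_)
    rw [← card_filter, filter_mem_eq_inter, inter_comm]
  apply exists_le_of_sum_le hX
  rw [sum_const, ← mul_sum, ← h2, smul_eq_mul, mul_comm]
  exact h

/-- a minimal way to add `x` to `S` -/
def Move (F : Finset (Finset α)) (S : Finset α) (x : α) (W : Finset α) : Prop :=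
  S ∈ F ∧ x ∈ W ∧ Disjoint S W ∧ S ∪ W ∈ F ∧ ∀ W' ⊂ W, x ∈ W' → S ∪ W' ∉ F

theorem exists_move {F : Finset (Finset α)} (hF : ∀ A ∈ F, ∀ B ∈ F, A ∪ B ∈ F)
    {S T : Finset α} {x : α} (hS : S ∈ F) (hT : T ∈ F) (hxT : x ∈ T) (hxS : x ∉ S) :
    ∃ W ⊆ T, Move F S x W := by
  obtain ⟨W, hW, hmin⟩ := exists_min_image
    ((T \ S).powerset.filter (fun W => x ∈ W ∧ S ∪ W ∈ F)) card
    ⟨T \ S, by
      simp only [mem_filter, mem_powerset, mem_sdiff]
      exact ⟨Subset.refl _, ⟨hxT, hxS⟩, by rw [union_sdiff_self_eq_union]; exact hF _ hS _ hT⟩⟩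
  simp only [mem_filter, mem_powerset] at hW hmin
  refine ⟨W, hW.1.trans sdiff_subset, hS, hW.2.1, ?_, hW.2.2, ?_⟩
  · exact disjoint_of_subset_right hW.1 disjoint_sdiff
  · intro W' h hx hu
    have := hmin W' ⟨h.1.trans hW.1, hx, hu⟩
    have := card_lt_card h
    omega

theorem Move.erase_notMem {F : Finset (Finset α)} {S W : Finset α} {x y : α}
    (h : Move F S x W) (hy : y ∈ W) (hxy : y ≠ x) : (S ∪ W).erase y ∉ F := by
  have hyS : y ∉ S := fun hy' => disjoint_left.1 h.2.2.1 hy' hy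
  rw [erase_union_distrib, erase_eq_of_notMem hyS]
  exact h.2.2.2.2 _ (erase_ssubset hy) (mem_erase.2 ⟨hxy.symm, h.2.1⟩)

theorem Move.key {F : Finset (Finset α)} (hF : ∀ A ∈ F, ∀ B ∈ F, A ∪ B ∈ F)
    {S W S' W' : Finset α} {x x' y : α} (h : Move F S x W) (h' : Move F S' x' W')
    (e : S ∪ W = S' ∪ W') (hy : y ∈ W) (hy' : y ∈ W') : x ∈ W' := by
  by_contra hx
  have e2 : S ∪ S' = S ∪ (W \ W') := by
    ext z
    have e3 : z ∈ S ∪ W ↔ z ∈ S' ∪ W' := by rw [e]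
    have e4 : z ∈ S' → z ∉ W' := fun hz => disjoint_left.1 h'.2.2.1 hz
    simp only [mem_union, mem_sdiff] at e3 ⊢
    tauto
  refine h.2.2.2.2 (W \ W') ⟨sdiff_subset, fun hs => ?_⟩ (mem_sdiff.2 ⟨h.2.1, hx⟩) ?_
  · exact (mem_sdiff.1 (hs hy)).2 hy'
  · rw [← e2]; exact hF _ h.1 _ h'.1

open Classical in
theorem flow {F : Finset (Finset α)} (hF : ∀ A ∈ F, ∀ B ∈ F, A ∪ B ∈ F) (X : Finset α)
    (w : α → Finset α → α → ℝ)
    (hout : ∀ S x, (S, x) ∈ blk F X →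
      1 ≤ ∑ u ∈ (X.powerset ×ˢ X).filter (fun u => Move F S x u.1 ∧ u.2 ∈ u.1 ∧ u.2 ≠ x),
        w x u.1 u.2)
    (hin : ∀ (y : α) (M : Finset (α × Finset α)), (∀ p ∈ M, p.1 ∈ X ∧ y ∈ p.2 ∧ y ≠ p.1) →
      (∀ p ∈ M, ∀ q ∈ M, p.1 ∈ q.2) → ∑ p ∈ M, w p.1 p.2 y ≤ 1) :
    (blk F X).card ≤ (ess F X).card := by
  set T : Finset ((Finset α × α) × (Finset α × α)) :=
    (blk F X ×ˢ (X.powerset ×ˢ X)).filter
      (fun t => Move F t.1.1 t.1.2 t.2.1 ∧ t.2.2 ∈ t.2.1 ∧ t.2.2 ≠ t.1.2) with hT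
  have hmem : ∀ t ∈ T, t.1.2 ∈ X ∧ t.2.2 ∈ X ∧ Move F t.1.1 t.1.2 t.2.1 ∧ t.2.2 ∈ t.2.1 ∧
      t.2.2 ≠ t.1.2 := by
    intro t ht
    simp only [hT, blk, mem_filter, mem_product] at ht
    exact ⟨ht.1.1.1.2, ht.1.2.2, ht.2⟩
  have h1 : ((blk F X).card : ℝ) ≤ ∑ t ∈ T, w t.1.2 t.2.1 t.2.2 := by
    rw [hT, sum_filter, sum_product, card_eq_sum_ones]
    push_cast
    refine sum_le_sum (fun b hb => ?_)
    have := hout b.1 b.2 hb
    rwa [sum_filter] at this
  have h2 : ∑ t ∈ T, w t.1.2 t.2.1 t.2.2 ≤ ((ess F X).card : ℝ) := by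
    rw [← sum_fiberwise_of_maps_to (t := ess F X) (g := fun t => (t.1.1 ∪ t.2.1, t.2.2)),
      card_eq_sum_ones]
    · push_cast
      refine sum_le_sum (fun e _ => ?_)
      have hinj : Set.InjOn (fun t : (Finset α × α) × (Finset α × α) => (t.1.2, t.2.1))
          (T.filter (fun t => (t.1.1 ∪ t.2.1, t.2.2) = e) : Finset _) := by
        rintro ⟨⟨S, x⟩, W, y⟩ ht ⟨⟨S', x'⟩, W', y'⟩ ht' e'
        rw [mem_coe, mem_filter] at ht ht'
        have a := hmem _ ht.1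
        have a' := hmem _ ht'.1
        have b := ht.2.trans ht'.2.symm
        simp only [Prod.mk.injEq] at e' b a a' ⊢
        obtain ⟨rfl, rfl⟩ := e'
        refine ⟨⟨?_, rfl⟩, rfl, b.2⟩
        rw [← union_sdiff_cancel_right a.2.2.1.2.2.1, b.1, union_sdiff_cancel_right a'.2.2.1.2.2.1]
      have := hin e.2 ((T.filter (fun t => (t.1.1 ∪ t.2.1, t.2.2) = e)).image
        (fun t => (t.1.2, t.2.1))) ?_ ?_
      · rw [sum_image hinj] at this
        refine le_trans (le_of_eq (sum_congr rfl (fun t ht => ?_))) this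
        rw [← (mem_filter.1 ht).2]
      · intro p hp
        obtain ⟨t, ht, rfl⟩ := mem_image.1 hp
        have a := hmem _ (mem_filter.1 ht).1
        rw [← (mem_filter.1 ht).2]
        exact ⟨a.1, a.2.2.2.1, a.2.2.2.2⟩
      · intro p hp q hq
        obtain ⟨t, ht, rfl⟩ := mem_image.1 hp
        obtain ⟨t', ht', rfl⟩ := mem_image.1 hq
        have a := hmem _ (mem_filter.1 ht).1
        have a' := hmem _ (mem_filter.1 ht').1
        have b := (mem_filter.1 ht).2.trans (mem_filter.1 ht').2.symm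
        simp only [Prod.mk.injEq] at b
        exact Move.key hF a.2.2.1 a'.2.2.1 b.1 a.2.2.2.1 (b.2 ▸ a'.2.2.2.1)
    · intro t ht
      have a := hmem _ ht
      simp only [ess, mem_filter, mem_product]
      exact ⟨⟨a.2.2.1.2.2.2.1, a.2.1⟩, mem_union_right _ a.2.2.2.1,
        a.2.2.1.erase_notMem a.2.2.2.1 a.2.2.2.2⟩
  exact_mod_cast h1.trans h2

end Pool.Agent.Lib.MP_dbcba7_co.Mo
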