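import Pool.Agent.Lib.MP_dbcba7_co.Mo.Crit

/-! The fractional criterion: a probability distribution on small members through each point. -/

namespace Pool.Agent.Lib.MP_dbcba7_co.Mo

open Finset

/-- the sum of `C(r,j)/(m+j)` -/
noncomputable def aa (m r : ℕ) : ℝ := ∑ j ∈ range (r + 1), (r.choose j : ℝ) * (1 / ((m + j : ℕ) : ℝ))

theorem aa_nonneg (m r : ℕ) : 0 ≤ aa m r := sum_nonneg (fun _ _ => by positivity)

theorem aa_succ (m r : ℕ) : aa m (r + 1) = aa m r + aa (m + 1) r := by
  have := sum_choose_succ_mul (R := ℝ) (fun j _ => 1 / ((m + j : ℕ) : ℝ)) r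
  unfold aa
  rw [this]
  congr 1
  refine sum_congr rfl (fun j _ => ?_)
  rw [show m + (j + 1) = m + 1 + j by ring]

theorem aa_anti (m r : ℕ) (hm : 1 ≤ m) : aa (m + 1) r ≤ aa m r := by
  refine sum_le_sum (fun j _ => mul_le_mul_of_nonneg_left ?_ (by positivity))
  refine one_div_le_one_div_of_le ?_ ?_
  · exact_mod_cast (by omega : 0 < m + j)
  · exact_mod_cast (by omega : m + j ≤ m + 1 + j)

theorem aa_pow (q r : ℕ) : 2 ^ q * aa (q + 1) r ≤ aa 1 (r + q) := by
  induction q generalizing r with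
  | zero => simp
  | succ q ih =>
    have h1 := ih (r + 1)
    have h2 := aa_succ (q + 1) r
    have h3 := aa_anti (q + 1) r (by omega)
    rw [show r + (q + 1) = r + 1 + q by ring, pow_succ, mul_assoc]
    refine le_trans (mul_le_mul_of_nonneg_left (by linarith) (by positivity)) h1

theorem aa_mono (r s : ℕ) : aa 1 r ≤ aa 1 (r + s) := by
  induction s with
  | zero => simp
  | succ s ih =>
    rw [← add_assoc, aa_succ]
    linarith [aa_nonneg (1 + 1) (r + s)]

theorem aa_one (r : ℕ) : ((r + 1 : ℕ) : ℝ) * aa 1 r = 2 ^ (r + 1) - 1 := by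
  have h := Nat.sum_range_choose (r + 1)
  rw [sum_range_succ', Nat.choose_zero_right] at h
  have h' : (∑ j ∈ range (r + 1), (((r + 1).choose (j + 1) : ℕ) : ℝ)) + 1 = 2 ^ (r + 1) := by
    exact_mod_cast h
  rw [← h', add_sub_cancel_right, aa, mul_sum]
  refine sum_congr rfl (fun j _ => ?_)
  have e : ((r + 1 : ℕ) : ℝ) * (r.choose j : ℝ) = ((r + 1).choose (j + 1) : ℕ) * ((j + 1 : ℕ) : ℝ) := by
    exact_mod_cast Nat.add_one_mul_choose_eq r j
  have : ((j + 1 : ℕ) : ℝ) ≠ 0 := by positivity
  rw [← mul_assoc, e, add_comm 1 j, mul_assoc, mul_one_div_cancel this, mul_one]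

theorem aa_bound (n q r : ℕ) (hq : 1 ≤ q) (h : q + r ≤ n) :
    (n : ℝ) * (q * aa q r) ≤ 2 ^ n - 1 := by
  obtain ⟨q, rfl⟩ : ∃ q', q = q' + 1 := ⟨q - 1, by omega⟩
  obtain ⟨s, rfl⟩ : ∃ s, n = r + q + s + 1 := ⟨n - (q + 1 + r), by omega⟩
  rw [← aa_one]
  refine mul_le_mul_of_nonneg_left ?_ (by positivity)
  refine le_trans ?_ ((aa_pow q r).trans (aa_mono _ s))
  refine mul_le_mul_of_nonneg_right ?_ (aa_nonneg _ _)
  exact_mod_cast Nat.lt_two_pow_self

variable {α : Type*} [DecidableEq α]

theorem frac {F : Finset (Finset α)} (hF : ∀ A ∈ F, ∀ B ∈ F, A ∪ B ∈ F) (n : ℕ) (X : Finset α)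
    (μ : α → Finset α → ℝ) (h0 : ∀ x ∈ X, ∀ T, 0 ≤ μ x T)
    (hs : ∀ x ∈ X, ∀ T ∈ F, μ x T ≠ 0 → x ∈ T ∧ T ⊆ X ∧ T.card ≤ n + 1)
    (h1 : ∀ x ∈ X, ∑ T ∈ F, μ x T = 1)
    (hy : ∀ x ∈ X, ∀ y, y ≠ x → (2 ^ n - 1) * ∑ T ∈ F.filter (fun T => y ∈ T), μ x T ≤ n) :
    F.card * X.card ≤ 2 * ∑ S ∈ F, (S ∩ X).card := by
  classical
  set c : ℕ → ℝ := fun m => 1 / ((m - 1 : ℕ) : ℝ) with hc
  have hc0 : ∀ m, 0 ≤ c m := fun m => by positivity
  refine mean_of_le F X (flow hF X
    (fun x W _ => ∑ T ∈ F, μ x T * (if W ⊆ T then c W.card else 0)) ?_ ?_)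
  · intro S x hb
    simp only [blk, mem_filter, mem_product] at hb
    obtain ⟨⟨hS, hx⟩, hxS, hi⟩ := hb
    rw [sum_comm, ← h1 x hx]
    refine sum_le_sum (fun T hT => ?_)
    rw [← mul_sum]
    by_cases hz : μ x T = 0
    · simp [hz]
    refine le_mul_of_one_le_right (h0 x hx T) ?_
    obtain ⟨a, b, -⟩ := hs x hx T hT hz
    obtain ⟨W, hW, hm⟩ := exists_move hF hS hT a hxS
    have hne : (W.erase x).Nonempty := by
      by_contra h
      rw [not_nonempty_iff_eq_empty, erase_eq_empty_iff] at h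
      have h2 := hm.2.2.2.1
      rcases h with h | h
      · exact absurd (h ▸ hm.2.1) (notMem_empty x)
      · rw [h, union_comm, ← insert_eq] at h2
        exact hi h2
    have hpos : (0 : ℝ) < ((W.card - 1 : ℕ) : ℝ) := by
      rw [← card_erase_of_mem hm.2.1]
      exact_mod_cast card_pos.2 hne
    calc (1 : ℝ) = ∑ u ∈ ({W} : Finset (Finset α)) ×ˢ W.erase x,
          (if u.1 ⊆ T then c u.1.card else 0) := by
          rw [sum_product, sum_singleton]
          simp only [if_pos hW]
          rw [sum_const, card_erase_of_mem hm.2.1, nsmul_eq_mul, mul_one_div_cancel hpos.ne']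
      _ ≤ _ := by
          refine sum_le_sum_of_subset_of_nonneg (fun u hu => ?_)
            (fun u _ _ => by split_ifs; exacts [hc0 _, le_rfl])
          simp only [mem_product, mem_singleton, mem_erase] at hu
          simp only [mem_filter, mem_product, mem_powerset, hu.1]
          exact ⟨⟨hW.trans b, b (hW hu.2.2)⟩, hm, hu.2.2, hu.2.1⟩
  · intro y M h2 h3
    set Q := M.image Prod.fst with hQ
    have hyQ : y ∉ Q := by
      intro h
      obtain ⟨p, hp, e⟩ := mem_image.1 h
      exact (h2 p hp).2.2 e.symm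
    have hB : ∀ p ∈ M, insert y Q ⊆ p.2 := by
      intro p hp z hz
      rcases mem_insert.1 hz with rfl | hz
      · exact (h2 p hp).2.1
      · obtain ⟨q, hq, rfl⟩ := mem_image.1 hz
        exact h3 q hq p hp
    rw [← sum_fiberwise_of_maps_to (t := Q) (g := Prod.fst) (fun p hp => mem_image_of_mem _ hp)]
    rcases Q.eq_empty_or_nonempty with hQ0 | hQ0
    · rw [hQ0]; simp
    have hq : (0 : ℝ) < Q.card := by exact_mod_cast card_pos.2 hQ0
    have e2 : ∀ x ∈ Q, ∑ p ∈ M.filter (fun p => p.1 = x),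
        ∑ T ∈ F, μ p.1 T * (if p.2 ⊆ T then c p.2.card else 0) ≤ 1 / (Q.card : ℝ) := by
      intro x hx
      obtain ⟨p0, hp0, rfl⟩ := mem_image.1 hx
      have hx0 := (h2 p0 hp0).1
      have e3 : ∀ T ∈ F, ∑ p ∈ M.filter (fun p => p.1 = p0.1),
          μ p.1 T * (if p.2 ⊆ T then c p.2.card else 0) ≤
          (if y ∈ T then μ p0.1 T else 0) * ((2 ^ n - 1) / (n * Q.card)) := by
        intro T hT
        rw [sum_congr rfl (g := fun p => μ p0.1 T * (if p.2 ⊆ T then c p.2.card else 0))
          (fun p hp => by rw [(mem_filter.1 hp).2]), ← mul_sum, ← sum_filter]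
        have hA : (0 : ℝ) ≤ (2 ^ n - 1) / (n * Q.card) :=
          div_nonneg (sub_nonneg.2 (one_le_pow₀ (by norm_num))) (by positivity)
        by_cases hz : μ p0.1 T = 0
        · simp [hz]
        by_cases hBT : insert y Q ⊆ T
        · rw [if_pos (hBT (mem_insert_self _ _))]
          refine mul_le_mul_of_nonneg_left ?_ (h0 _ hx0 T)
          have hinj : Set.InjOn (Prod.snd : α × Finset α → Finset α)
              ((M.filter (fun p => p.1 = p0.1)).filter (fun p => p.2 ⊆ T) : Finset _) := by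
            intro p hp q hq e
            rw [mem_coe, mem_filter, mem_filter] at hp hq
            exact Prod.ext (hp.1.2.trans hq.1.2.symm) e
          have h4 := sum_between hc0 (insert y Q) T hBT
            (((M.filter (fun p => p.1 = p0.1)).filter (fun p => p.2 ⊆ T)).image Prod.snd) (by
              intro W hW
              obtain ⟨p, hp, rfl⟩ := mem_image.1 hW
              rw [mem_filter, mem_filter] at hp
              exact ⟨hB p hp.1.1, hp.2⟩)
          rw [sum_image hinj, card_insert_of_notMem hyQ] at h4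
          have h5 := card_le_card hBT
          rw [card_insert_of_notMem hyQ] at h5
          have h6 := (hs _ hx0 T hT hz).2.2
          have h7 := card_pos.2 hQ0
          have h8 := aa_bound n Q.card (T.card - (Q.card + 1)) h7 (by omega)
          have hn : (0 : ℝ) < n := by exact_mod_cast (by omega : 0 < n)
          refine h4.trans ?_
          rw [le_div_iff₀ (by positivity)]
          refine le_trans (le_of_eq ?_) h8
          rw [mul_comm, mul_assoc, aa]
          congr 2
          refine sum_congr rfl (fun j _ => ?_)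
          simp only [hc]
          rw [show Q.card + 1 + j - 1 = Q.card + j by omega]
        · rw [filter_eq_empty_iff.2 (fun p hp h => hBT ((hB p (mem_filter.1 hp).1).trans h)),
            sum_empty, mul_zero]
          refine mul_nonneg ?_ hA
          split_ifs
          exacts [h0 _ hx0 T, le_rfl]
      rw [sum_comm]
      refine (sum_le_sum e3).trans ?_
      rw [← sum_mul, ← sum_filter]
      have h9 := hy _ hx0 y (h2 p0 hp0).2.2
      rcases Nat.eq_zero_or_pos n with rfl | hn
      · simp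
      have hn' : (0 : ℝ) < n := by exact_mod_cast hn
      rw [← mul_div_assoc, div_le_div_iff₀ (by positivity) hq, mul_comm _ (2 ^ n - 1 : ℝ), one_mul]
      exact mul_le_mul_of_nonneg_right h9 hq.le
    refine (sum_le_sum e2).trans ?_
    rw [sum_const, nsmul_eq_mul, mul_one_div_cancel hq.ne']

end Pool.Agent.Lib.MP_dbcba7_co.Mo
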