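import Pool.Agent.Lib.MP_dbcba7_co.Mo.Crit

/-! Many `k`-sets inside `X` force petals through every point of a subset of `X`. -/

namespace Pool.Agent.Lib.MP_dbcba7_co.Mo

open Finset

variable {α : Type*} [DecidableEq α]

theorem clean (A : Finset (Finset α)) (X : Finset α) (j M : ℕ) (hA : ∀ T ∈ A, T ⊆ X)
    (h : M * X.card.choose j < A.card) :
    ∃ B ⊆ A, B.Nonempty ∧ ∀ T ∈ B, ∀ U ⊆ T, U.card = j → M < (B.filter (fun V => U ⊆ V)).card := by
  obtain ⟨B, hB, hmin⟩ := exists_min_image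
    (A.powerset.filter (fun B => M * (B.biUnion (powersetCard j)).card < B.card)) card
    ⟨A, by
      simp only [mem_filter, mem_powerset]
      refine ⟨Subset.refl _, lt_of_le_of_lt (Nat.mul_le_mul_left _ ?_) h⟩
      rw [← card_powersetCard]
      refine card_le_card (fun U hU => ?_)
      obtain ⟨T, hT, hU⟩ := mem_biUnion.1 hU
      exact powersetCard_mono (hA T hT) hU⟩
  simp only [mem_filter, mem_powerset] at hB hmin
  refine ⟨B, hB.1, card_pos.1 (by omega), fun T hT U hU hj => ?_⟩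
  by_contra! hle
  have h1 := card_filter_add_card_filter_not (s := B) (fun V => U ⊆ V)
  have h2 : 0 < (B.filter (fun V => U ⊆ V)).card := card_pos.2 ⟨T, mem_filter.2 ⟨hT, hU⟩⟩
  have h3 : ((B.filter (fun V => ¬ U ⊆ V)).biUnion (powersetCard j)).card <
      (B.biUnion (powersetCard j)).card := by
    refine card_lt_card ⟨biUnion_subset_biUnion_of_subset_left _ (filter_subset _ _), fun hs => ?_⟩
    obtain ⟨V, hV, hUV⟩ := mem_biUnion.1
      (hs (mem_biUnion.2 ⟨T, hT, mem_powersetCard.2 ⟨hU, hj⟩⟩))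
    exact (mem_filter.1 hV).2 (mem_powersetCard.1 hUV).1
  have h4 := Nat.mul_le_mul_left M (Nat.succ_le_of_lt h3)
  rw [Nat.mul_succ] at h4
  have := hmin (B.filter (fun V => ¬ U ⊆ V)) ⟨(filter_subset _ _).trans hB.1, by omega⟩
  omega

theorem shift {B : Finset (Finset α)} {k m : ℕ} (hk : ∀ T ∈ B, T.card = k)
    (hB : ∀ T ∈ B, ∀ U ⊆ T, U.card = k - 2 → m.choose 2 < (B.filter (fun V => U ⊆ V)).card)
    {x : α} (hx : ∃ T ∈ B, x ∈ T) (Z : Finset α) (hxZ : x ∉ Z) (hZ : Z.card ≤ m) :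
    ∃ T ∈ B, x ∈ T ∧ (T ∩ Z).card ≤ 1 := by
  obtain ⟨T, hT, hmin⟩ := exists_min_image (B.filter (fun T => x ∈ T)) (fun T => (T ∩ Z).card)
    (by obtain ⟨T, h1, h2⟩ := hx; exact ⟨T, mem_filter.2 ⟨h1, h2⟩⟩)
  simp only [mem_filter] at hT hmin
  refine ⟨T, hT.1, hT.2, ?_⟩
  by_contra! hlt
  obtain ⟨E, hE, hE2⟩ := exists_subset_card_eq (show 2 ≤ (T ∩ Z).card from hlt)
  have hET : E ⊆ T := hE.trans inter_subset_left
  have hEZ : E ⊆ Z := hE.trans inter_subset_right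
  have hU : (T \ E).card = k - 2 := by rw [card_sdiff_of_subset hET, hk T hT.1, hE2]
  have hk2 : 2 ≤ k := by rw [← hk T hT.1, ← hE2]; exact card_le_card hET
  have hxU : x ∈ T \ E := mem_sdiff.2 ⟨hT.2, fun h => hxZ (hEZ h)⟩
  have split : ∀ V, T \ E ⊆ V →
      (V ∩ Z).card = ((T \ E) ∩ Z).card + ((V \ (T \ E)) ∩ Z).card := by
    intro V hV
    rw [← card_union_of_disjoint
      (disjoint_of_subset_left inter_subset_left
        (disjoint_of_subset_right inter_subset_left disjoint_sdiff)),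
      ← union_inter_distrib_right, union_sdiff_of_subset hV]
  have hTs := split T sdiff_subset
  rw [Finset.sdiff_sdiff_eq_self hET, inter_eq_left.2 hEZ, hE2] at hTs
  have h1 : (B.filter (fun V => T \ E ⊆ V)).card ≤ (powersetCard 2 Z).card := by
    apply card_le_card_of_injOn (fun V => V \ (T \ E))
    · intro V hV
      rw [mem_coe, mem_filter] at hV
      have a : (V \ (T \ E)).card = 2 := by
        rw [card_sdiff_of_subset hV.2, hk V hV.1, hU]; omega
      have b := hmin V ⟨hV.1, hV.2 hxU⟩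
      rw [split V hV.2, hTs] at b
      have c : (V \ (T \ E)).card ≤ ((V \ (T \ E)) ∩ Z).card := by omega
      rw [mem_coe, mem_powersetCard]
      exact ⟨inter_eq_left.1 (eq_of_subset_of_card_le inter_subset_left c), a⟩
    · intro V hV V' hV' e
      rw [mem_coe, mem_filter] at hV hV'
      simp only at e
      rw [← sdiff_union_of_subset hV.2, e, sdiff_union_of_subset hV'.2]
  rw [card_powersetCard] at h1
  have := hB T hT.1 _ sdiff_subset hU
  have := Nat.choose_le_choose 2 hZ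
  omega

theorem kernel {B : Finset (Finset α)} {t : ℕ} {x : α}
    (h : ∀ Z : Finset α, x ∉ Z → Z.card ≤ 2 * t → ∃ T ∈ B, x ∈ T ∧ (T ∩ Z).card ≤ 1) :
    ∃ K : Finset α, ∀ Z : Finset α, x ∉ Z → Z.card ≤ t → Disjoint Z K →
      ∃ T ∈ B, x ∈ T ∧ Disjoint T Z ∧ (T ∩ K).card ≤ 1 := by
  by_cases h0 : ∀ Z : Finset α, x ∉ Z → Z.card ≤ t → ∃ T ∈ B, x ∈ T ∧ Disjoint T Z
  · refine ⟨∅, fun Z h1 h2 _ => ?_⟩
    obtain ⟨T, a, b, c⟩ := h0 Z h1 h2
    exact ⟨T, a, b, c, by simp⟩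
  push Not at h0
  obtain ⟨K, hxK, hK, hall⟩ := h0
  refine ⟨K, fun Z h1 h2 h3 => ?_⟩
  obtain ⟨T, a, b, c⟩ := h (K ∪ Z) (by simp [hxK, h1])
    ((card_union_le _ _).trans (by omega))
  refine ⟨T, a, b, ?_, le_trans (card_le_card (inter_subset_inter_left subset_union_left)) c⟩
  obtain ⟨u, hu, huK⟩ := not_disjoint_iff.1 (hall T a b)
  refine disjoint_left.2 (fun v hv hvZ => ?_)
  have := card_le_one.1 c u (mem_inter.2 ⟨hu, mem_union_left _ huK⟩) v
    (mem_inter.2 ⟨hv, mem_union_right _ hvZ⟩)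
  exact disjoint_left.1 h3 hvZ (this ▸ huK)

theorem petals {B : Finset (Finset α)} {k t : ℕ} (hk : ∀ T ∈ B, T.card = k) {x : α}
    {K : Finset α}
    (h : ∀ Z : Finset α, x ∉ Z → Z.card ≤ t → Disjoint Z K →
      ∃ T ∈ B, x ∈ T ∧ Disjoint T Z ∧ (T ∩ K).card ≤ 1) (n : ℕ) (hn : n * (k - 1) ≤ t) :
    ∃ P : Fin n → Finset α, (∀ i, P i ∈ B ∧ x ∈ P i ∧ (P i ∩ K).card ≤ 1) ∧
      ∀ i j, i ≠ j → P i ∩ P j ⊆ insert x K := by
  induction n with
  | zero => exact ⟨Fin.elim0, fun i => i.elim0, fun i => i.elim0⟩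
  | succ n ih =>
    have hn' : n * (k - 1) ≤ t := le_trans (Nat.mul_le_mul_right _ n.le_succ) hn
    obtain ⟨P, h1, h2⟩ := ih hn'
    obtain ⟨T, a, b, c, d⟩ := h (univ.biUnion (fun i => P i \ insert x K))
      (by simp) (by
        refine le_trans (card_biUnion_le_card_mul _ _ (k - 1) (fun i _ => ?_)) (by simpa using hn')
        rw [← hk _ (h1 i).1, ← card_erase_of_mem (h1 i).2.1]
        refine card_le_card (fun z hz => mem_erase.2 ⟨?_, (mem_sdiff.1 hz).1⟩)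
        rintro rfl
        exact (mem_sdiff.1 hz).2 (mem_insert_self _ _))
      (by
        refine disjoint_left.2 (fun z hz hzK => ?_)
        obtain ⟨i, -, hi⟩ := mem_biUnion.1 hz
        exact (mem_sdiff.1 hi).2 (mem_insert_of_mem hzK))
    have e : ∀ i, T ∩ P i ⊆ insert x K := by
      intro i z hz
      by_contra hz'
      exact disjoint_left.1 c (mem_inter.1 hz).1
        (mem_biUnion.2 ⟨i, mem_univ _, mem_sdiff.2 ⟨(mem_inter.1 hz).2, hz'⟩⟩)
    refine ⟨Fin.cons T P, fun i => ?_, fun i j => ?_⟩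
    · refine Fin.cases ?_ (fun i => ?_) i
      · exact ⟨a, b, d⟩
      · exact h1 i
    · refine Fin.cases ?_ (fun i => ?_) i <;> refine Fin.cases ?_ (fun j => ?_) j <;> intro hij
      · exact absurd rfl hij
      · exact e j
      · rw [inter_comm]; exact e i
      · exact h2 i j (fun h => hij (by rw [h]))

theorem crude (k q r : ℕ) (hq : 1 ≤ q) (h : q + 1 + r ≤ k) :
    (q : ℝ) * ∑ j ∈ range (r + 1), (r.choose j : ℝ) * (1 / ((2 ^ (k - 2) : ℕ) : ℝ)) ≤ 1 := by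
  rw [← sum_mul, ← Nat.cast_sum, Nat.sum_range_choose, ← mul_assoc, mul_one_div,
    div_le_one (by positivity)]
  have h1 : q ≤ 2 ^ (q - 1) := by
    have := Nat.lt_two_pow_self (n := q - 1)
    omega
  have h2 : q * 2 ^ r ≤ 2 ^ (k - 2) := by
    refine (Nat.mul_le_mul_right _ h1).trans ?_
    rw [← pow_add]
    exact Nat.pow_le_pow_right (by norm_num) (by omega)
  exact_mod_cast h2

theorem morris (k : ℕ) (hk : 2 ≤ k) (F : Finset (Finset α))
    (hF : ∀ A ∈ F, ∀ B ∈ F, A ∪ B ∈ F) (X : Finset α)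
    (h : ((k - 1) * 2 ^ (k - 1)).choose 2 * X.card.choose (k - 2) <
      (F.filter (fun A => A ⊆ X ∧ A.card = k)).card) :
    ∃ x ∈ X, F.card ≤ 2 * (F.filter (fun S => x ∈ S)).card := by
  obtain ⟨B, hBA, hne, hB⟩ := clean _ X (k - 2) _ (fun T hT => (mem_filter.1 hT).2.1) h
  have hBk : ∀ T ∈ B, T.card = k := fun T hT => (mem_filter.1 (hBA hT)).2.2
  have key : ∀ x : α, ∃ (K : Finset α) (P : Fin (2 ^ (k - 2)) → Finset α), x ∈ B.biUnion id →
      (∀ i, P i ∈ B ∧ x ∈ P i ∧ (P i ∩ K).card ≤ 1) ∧ ∀ i j, i ≠ j → P i ∩ P j ⊆ insert x K := by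
    intro x
    by_cases hx : x ∈ B.biUnion id
    · obtain ⟨K, hK⟩ := kernel (B := B) (t := 2 ^ (k - 2) * (k - 1)) (x := x) (fun Z h1 h2 =>
        shift hBk hB (by simpa using hx) Z h1 (by
          have : 2 ^ (k - 1) = 2 * 2 ^ (k - 2) := by
            rw [← pow_succ']; congr 1; omega
          rw [this]; linarith))
      obtain ⟨P, hP⟩ := petals hBk hK _ le_rfl
      exact ⟨K, P, fun _ => hP⟩
    · exact ⟨∅, fun _ => ∅, fun h => absurd h hx⟩
  choose K P hP using key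
  have hD : (0 : ℝ) < ((2 ^ (k - 2) : ℕ) : ℝ) := by positivity
  have := crit hF (k := k) (X := B.biUnion id) (P := P) (K := K)
    (c := fun _ => 1 / ((2 ^ (k - 2) : ℕ) : ℝ)) (by positivity) (fun _ => by positivity)
    (fun x hx i => ⟨(mem_filter.1 (hBA ((hP x hx).1 i).1)).1, ((hP x hx).1 i).2.1,
      subset_biUnion_of_mem id ((hP x hx).1 i).1, ((hP x hx).1 i).2.2⟩)
    (fun x hx i => (hBk _ ((hP x hx).1 i).1).le) (fun x hx => (hP x hx).2)
    (fun x _ i W _ _ hne => by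
      rw [mul_comm, mul_assoc, one_div_mul_cancel hD.ne', mul_one]
      exact_mod_cast card_pos.2 hne)
    (crude k)
  obtain ⟨T, hT⟩ := hne
  obtain ⟨z, hz⟩ : T.Nonempty := card_pos.1 (by rw [hBk T hT]; omega)
  obtain ⟨x, hx, hx'⟩ := half_of_mean F _ ⟨z, mem_biUnion.2 ⟨T, hT, hz⟩⟩ this
  obtain ⟨V, hV, hxV⟩ := mem_biUnion.1 hx
  exact ⟨x, (mem_filter.1 (hBA hV)).2.1 hxV, hx'⟩

end Pool.Agent.Lib.MP_dbcba7_co.Mo
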